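import Mathlib
import Pool.Agent.R263.DB.Defs
import Pool.Agent.R263.DB.Glue
import Pool.Agent.R263.DB.Asm
import Pool.Agent.R263.DB.C1
import Pool.Agent.R263.DB.C2
import Pool.Agent.R263.DB.N1
import Pool.Agent.R263.DB.N2
import Pool.Agent.R263.DB.N
import Pool.Agent.R263.DB.S1
import Pool.Agent.R263.DB.S2
import Pool.Agent.R263.DB.Rem
import Pool.Agent.R263.DB.S
import Pool.Agent.R263.DB.AE
import Pool.Agent.R263.DB.A1
import Pool.Agent.R263.DB.B1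
import Pool.Agent.R263.DB.B2
import Pool.Agent.R263.DB.B3
import Pool.Agent.R263.DB.B4
import Pool.Agent.R263.DB.B5
import Pool.Agent.R263.DB.B6

/-!
# Hölder bounds for the `∂̄`-derivative of indicator functions (MP_d3add2_an, Q1)

For `α > 0`, an integer `k > α` and `f : ℂ → ℂ` let
`‖f‖_{Lip α} = sup |f| + sup_{h ≠ 0} sup_z |Δ_h^k f(z)| / |h|^α` (`lipNorm`). A Borel set `Ω` is
`α`-admissible (`Admissible`) if `|⟨∂χ_Ω/∂z̄, f⟩| = |-∫_Ω ∂f/∂z̄ dA| ≤ C ‖f‖_{Lip α}` for all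
`f ∈ C_c^∞(ℂ)`.

We characterise the admissible sets:

* for every `α > 0` and every mollifier `φ ∈ C_c^∞(ℂ)`, `∫ φ = 1`, `φ_j(z) = 4^j φ(2^j z)`:
  `Ω` is `α`-admissible iff `∑_{j ≥ 0} 2^{-jα} ‖χ_Ω * ∂̄φ_j‖_{L¹(ℂ)} < ∞`;
* for `0 < α < 1`: `Ω` is `α`-admissible iff `∫_Ω ∫_{ℂ∖Ω} |z - w|^{α-3} dA(w) dA(z) < ∞`, i.e. `Ω` has
  finite fractional perimeter of order `1 - α`;
* for `0 < α ≤ 1` every `α`-admissible set has finite area or complement of finite area.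
-/

open MeasureTheory Complex Filter Topology
open scoped ContDiff ENNReal NNReal

namespace Pool.Agent.Results.MP_d3add2_an.AdmissibleSets

open Pool.Agent.R263.DB

theorem result (Ω : Set ℂ) (hΩ : MeasurableSet Ω) :
    -- (1) all `α > 0`: the criterion for one (equivalently, every) mollifier `φ`
    (∀ (α : ℝ) (k : ℕ) (φ : ℂ → ℂ), 0 < α → α < k → ContDiff ℝ ∞ φ → HasCompactSupport φ →
      ∫ z, φ z = 1 →
      (Admissible α k Ω ↔
        ∑' j : ℕ, ENNReal.ofReal ((2 : ℝ) ^ (-(α * (j : ℝ)))) *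
          (∫⁻ z : ℂ, ‖∫ w in Ω, dbar (fun u => (4 : ℂ) ^ j * φ ((2 : ℂ) ^ j * u)) (z - w)‖ₑ) < ⊤)) ∧
    -- (2) `0 < α < 1`: finite fractional perimeter of order `1 - α`
    (∀ (α : ℝ) (k : ℕ), 0 < α → α < 1 → 1 ≤ k →
      (Admissible α k Ω ↔
        ∫⁻ z in Ω, ∫⁻ w in Ωᶜ, ENNReal.ofReal (‖z - w‖ ^ (α - 3)) < ⊤)) ∧
    -- (3) `0 < α ≤ 1`: an admissible set has finite area or its complement has finite area
    (∀ (α : ℝ) (k : ℕ), 0 < α → α ≤ 1 → α < k → Admissible α k Ω →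
      volume Ω < ⊤ ∨ volume Ωᶜ < ⊤) := by
  have hN : StmtN := stmtN stmtC1 stmtN1 stmtN2
  have hS : StmtS := stmtS stmtC1 stmtC2 (stmtS2 stmtS1 stmtC1) (stmtRem stmtC1 stmtC2)
  refine ⟨?_, ?_, ?_⟩
  · intro α k φ hα hk h1 h2 h3
    exact main_lp hN hS Ω hΩ α k φ hα hk ⟨h1, h2⟩ h3
  · intro α k hα hα1 hk
    exact main_frac stmtB1 stmtB2 stmtB3 stmtB4 stmtB5 stmtB6 stmtAE stmtA1 hN hS Ω hΩ α k hα hα1 hk
  · intro α k hα hα1 hk hA
    exact main_finite stmtB1 stmtB2 stmtB3 stmtB5 hN Ω hΩ α k hα hα1 hk hA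

end Pool.Agent.Results.MP_d3add2_an.AdmissibleSets
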